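import Pool.Agent.R571.CS.Main

/-!
# Every second countable locally compact group carries a `w*`-continuous convolution semigroup of
absolutely continuous probability measures
-/

namespace Pool.Agent.Results.MP_5d826d_an.AbsolutelyContinuousSemigroup

open MeasureTheory Filter Topology Set
open scoped ZeroAtInfty NNReal

/-- A convolution semigroup on `H`: a family `(μ_t)_{t ≥ 0}` of probability measures with
`μ_{t+s} = μ_t * μ_s` and `μ_0 = δ_e`. Here `μ ∗ₘ ν` is Mathlib's convolution, the image of the
product measure `μ × ν` under the multiplication, so that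
`(μ ∗ₘ ν)(f) = ∫∫ f(st) dμ(s) dν(t)`. -/
structure ConvolutionSemigroup {H : Type*} [Group H] [MeasurableSpace H]
    (μ : ℝ≥0 → Measure H) : Prop where
  isProbabilityMeasure : ∀ t, IsProbabilityMeasure (μ t)
  zero : μ 0 = Measure.dirac 1
  add : ∀ t s, μ (t + s) = μ t ∗ₘ μ s

/-- The family `(μ_t)` is `w*`-continuous: `∫ f dμ_t → f(e)` as `t → 0⁺` for all (complex valued)
`f ∈ C₀(H)`. -/
def WeakStarContinuous {H : Type*} [Group H] [TopologicalSpace H] [MeasurableSpace H]
    (μ : ℝ≥0 → Measure H) : Prop :=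
  ∀ f : C₀(H, ℂ), Tendsto (fun t => ∫ x, f x ∂(μ t)) (𝓝[>] 0) (𝓝 (f 1))

open Pool.Agent.R571.CS in
/-- On every second countable locally compact group `H` with left Haar measure `m` there is a
`w*`-continuous convolution semigroup `(μ_t)` such that `μ_t` is absolutely continuous with respect
to `m` for every `t > 0`. -/
theorem result (H : Type*) [Group H] [TopologicalSpace H] [IsTopologicalGroup H]
    [LocallyCompactSpace H] [SecondCountableTopology H] [T2Space H]
    [MeasurableSpace H] [BorelSpace H] (m : Measure H) [m.IsHaarMeasure] :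
    ∃ μ : ℝ≥0 → Measure H, ConvolutionSemigroup μ ∧ WeakStarContinuous μ ∧
      ∀ t, 0 < t → μ t ≪ m := by
  obtain ⟨μ, h1, h2, h3, h4, h5⟩ := main m
  refine ⟨μ, ⟨h1, h2, h3⟩, fun f => ?_, h5⟩
  have hint : ∀ t, Integrable f (μ t) := fun t =>
    Integrable.of_bound (C := ‖(f : C₀(H, ℂ))‖) (map_continuous f).aestronglyMeasurable
      (.of_forall fun x => by
        rw [← ZeroAtInftyContinuousMap.norm_toBCF_eq_norm]
        exact f.toBCF.norm_coe_le_norm x)
  have hz := zero_at_infty f
  let fre : E H := (⟨⟨fun x => (f x).re, Complex.continuous_re.comp (map_continuous f)⟩, by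
    have := (Complex.continuous_re.tendsto 0).comp hz
    rw [Complex.zero_re] at this
    exact this⟩ : C₀(H, ℝ))
  let fim : E H := (⟨⟨fun x => (f x).im, Complex.continuous_im.comp (map_continuous f)⟩, by
    have := (Complex.continuous_im.tendsto 0).comp hz
    rw [Complex.zero_im] at this
    exact this⟩ : C₀(H, ℝ))
  have e : ∀ t, ∫ x, f x ∂(μ t) =
      ((∫ x, fre x ∂(μ t) : ℝ) : ℂ) + ((∫ x, fim x ∂(μ t) : ℝ) : ℂ) * Complex.I :=
    fun t => (integral_re_add_im (𝕜 := ℂ) (hint t)).symm
  have e1 : f 1 = ((fre 1 : ℝ) : ℂ) + ((fim 1 : ℝ) : ℂ) * Complex.I := (Complex.re_add_im _).symm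
  simp only [e]
  rw [e1]
  have t1 := (Complex.continuous_ofReal.tendsto _).comp (h4 fre)
  have t2 := (Complex.continuous_ofReal.tendsto _).comp (h4 fim)
  exact (t1.add (t2.mul_const Complex.I)).mono_left nhdsWithin_le_nhds

end Pool.Agent.Results.MP_5d826d_an.AbsolutelyContinuousSemigroup
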